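import Pool.Agent.Lib_helper15.STE.B.GAll

/-! # STE: assembly of the geometric half -/

open MeasureTheory Filter Topology
open scoped InnerProductSpace

namespace Pool.Agent.Lib_helper15.STE

theorem gau_mono {p : E3 → ℝ} {η η' : ℝ} (hp : Gau p η) (h : η ≤ η') : Gau p η' :=
  ⟨hp.sub, hp.hom, fun x => le_trans (by nlinarith [norm_nonneg x]) (hp.lo x),
    fun x => le_trans (hp.up x) (by nlinarith [norm_nonneg x])⟩

theorem GG_nonneg (F : E3 → ℝ) : 0 ≤ GG F := integral_nonneg (fun x => by positivity)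

theorem ff_nonneg (F : E3 → ℝ) : 0 ≤ ff F := integral_nonneg (fun x => by positivity)

theorem pt_two (τ φ : ℝ) : pt τ φ 2 = τ := by simp [pt]

theorem pt_cont_right (τ : ℝ) : Continuous (fun φ => pt τ φ) :=
  sigC_pt_cont.comp (Continuous.prodMk_right τ)

/-- bounds of `GG` and `ff` for gauge functions -/
theorem core_small (p : E3 → ℝ) (η : ℝ) (hp : Gau p η) (h0 : 0 ≤ η) (h1 : η ≤ 1 / 4) :
    GG (FF p) ≤ 25 * η ∧ ff (FF p) ≤ η := by
  have := sigA_prob
  have hadm := gauF_adm p η hp h0 h1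
  constructor
  · have hb : ∀ᵐ x ∂sig, ‖fderiv ℝ (FF p) x‖ ^ 2 ≤ 25 * η := by
      filter_upwards [sigA_sphere] with x hx
      have := gauF_grad_bound p η hp h0 h1 x hx
      have h2 : ‖fderiv ℝ (FF p) x‖ ^ 2 ≤ (5 * √η) ^ 2 := by
        apply pow_le_pow_left₀ (norm_nonneg _) this
      rw [mul_pow, Real.sq_sqrt h0] at h2
      linarith
    have := integral_mono_of_nonneg (μ := sig) (f := fun x => ‖fderiv ℝ (FF p) x‖ ^ 2)
      (g := fun _ => 25 * η) (Eventually.of_forall fun x => by positivity)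
      (integrable_const _) hb
    simpa [GG] using this
  · have hb : ∀ᵐ x ∂sig, FF p x ^ 2 ≤ η := by
      filter_upwards [sigA_sphere] with x hx
      have hx0 : x ≠ 0 := by
        intro h; rw [h, norm_zero] at hx; exact zero_ne_one hx
      have := gauF_bound p η hp h0 h1 x hx0
      have h2 : FF p x ^ 2 ≤ (2 * η) ^ 2 := by
        rw [← sq_abs]; exact pow_le_pow_left₀ (abs_nonneg _) this 2
      nlinarith
    have := integral_mono_of_nonneg (μ := sig) (f := fun x => FF p x ^ 2)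
      (g := fun _ => η) (Eventually.of_forall fun x => by positivity)
      (integrable_const _) hb
    simpa [ff] using this

theorem Sp_cont (p : E3 → ℝ) (η κ : ℝ) (hp : Gau p η) (h0 : 0 ≤ η) (hκ : 0 < κ) (hκ1 : κ < 1)
    (h1 : η ≤ κ / 4) :
    ContinuousOn (fun z : ℝ × ℝ => Sp p z.1 z.2) {z | |z.1| ≤ 1 - κ} := by
  unfold Sp
  refine ContinuousOn.div continuous_fst.continuousOn ?_ ?_
  · exact (((rad_cont p η κ hp h0 hκ hκ1 h1).pow 2).add
      (continuous_fst.continuousOn.pow 2)).sqrt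
  · intro z hz
    have := (rad_bounds p η κ hp h0 hκ hκ1 h1 z.1 z.2 hz).1
    positivity

theorem Sp_cont_right (p : E3 → ℝ) (η κ : ℝ) (hp : Gau p η) (h0 : 0 ≤ η) (hκ : 0 < κ)
    (hκ1 : κ < 1) (h1 : η ≤ κ / 4) (t : ℝ) (ht : |t| ≤ 1 - κ) :
    Continuous (fun φ => Sp p t φ) := by
  have h := (Sp_cont p η κ hp h0 hκ hκ1 h1).comp (f := fun φ : ℝ => ((t, φ) : ℝ × ℝ))
    (s := Set.univ) (by fun_prop) (by intro φ _; exact ht)
  rw [← continuousOn_univ]
  exact h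

theorem le_of_sq_le_sq' {a b : ℝ} (h : a ^ 2 ≤ b ^ 2) (hb : 0 ≤ b) : a ≤ b :=
  (abs_le_of_sq_le_sq' h hb).2

theorem aux1 (a b : ℝ) : (1 - a ^ 2) * b ^ 2 ≤ b ^ 2 := by
  nlinarith [mul_nonneg (sq_nonneg a) (sq_nonneg b)]

theorem aux2 {ε x : ℝ} (h : 0 ≤ ε) (hx : 0 ≤ x) : (1 - ε) * x ≤ x := by
  nlinarith [mul_nonneg h hx]

theorem aux3 {κ t : ℝ} (hκ : 0 < κ) (hκ1 : κ < 1) (htabs : |t| ≤ 1 - κ) : κ ≤ 1 - t ^ 2 := by
  have : t ^ 2 ≤ (1 - κ) ^ 2 := by rw [← sq_abs]; exact pow_le_pow_left₀ (abs_nonneg _) htabs 2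
  nlinarith

/-- the per-plane inequality, for almost every plane -/
theorem core_plane (κ ε : ℝ) (hκ : 0 < κ) (hκ1 : κ < 1) (hε : 0 < ε) (hε1 : ε < 1) :
    ∃ η : ℝ, 0 < η ∧ η ≤ κ / 4 ∧ ∀ p : E3 → ℝ, Gau p η → ∫ x, FF p x ∂sig = 0 → Hyp p κ →
      ∀ᵐ t ∂(volume.restrict (Set.Icc (-1 + κ) (1 - κ))),
        (1 - ε) * ((1 - ε) * av (fun φ => XX (e 2) (FF p) (pt (Sp p t φ) φ) ^ 2))
          - (1 + ε) * av (fun φ => FF p (pt (Sp p t φ) φ) ^ 2)
          + av (fun φ => FF p (pt (Sp p t φ) φ)) ^ 2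
        ≤ (1 - t ^ 2) ^ 2 * (1 / 2 * DD (FF p) + ε * (GG (FF p) + ff (FF p)))
          + ε * |1 / 2 * DD (FF p) + ε * (GG (FF p) + ff (FF p))| := by
  obtain ⟨η1, h1p, H1⟩ := alg_main κ ε hκ hκ1 hε hε1
  obtain ⟨η2, h2p, h2κ, H2⟩ := ptw_main κ ε hκ hκ1 hε hε1
  obtain ⟨η3, h3p, h3q, H3⟩ := vs_main ε hε
  obtain ⟨η4, h4p, h4κ, H4⟩ := slp_main κ (1 / 2) hκ hκ1 (by norm_num) (by norm_num)
  set η : ℝ := min (min (min η2 η3) (min η4 (η1 / 70))) (min (κ / 144) (ε / 200)) with hη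
  have e1 : η ≤ η2 := by simp [hη]
  have e2 : η ≤ η3 := by simp [hη]
  have e3 : η ≤ η4 := by simp [hη]
  have e4 : η ≤ η1 / 70 := by simp [hη]
  have e5 : η ≤ κ / 144 := by simp [hη]
  have e6 : η ≤ ε / 200 := by simp [hη]
  have ep : 0 < η := by
    simp only [hη, lt_min_iff]
    refine ⟨⟨⟨h2p, h3p⟩, ⟨h4p, by positivity⟩⟩, ⟨by positivity, by positivity⟩⟩
  have hη4 : η ≤ κ / 4 := by linarith
  have hq : η ≤ 1 / 4 := by linarith
  refine ⟨η, ep, hη4, fun p hp hint hyp => ?_⟩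
  have hsm := core_small p η hp ep.le hq
  have hG := GG_nonneg (FF p)
  have hf := ff_nonneg (FF p)
  set G := GG (FF p) with hGdef
  set f2 := ff (FF p) with hfdef
  have hadm := gauF_adm p η hp ep.le hq
  have hmeasF := admA_meas _ hadm
  set θ : ℝ := 1 / 2 * DD (FF p) + ε * (G + f2) with hθ
  have hD : DD (FF p) = 3 / 2 * (G - 2 * f2) := rfl
  have hE : G + f2 ≤ 26 * η := by linarith [hsm.1, hsm.2]
  have hE0 : 0 ≤ G + f2 := by linarith
  have hεE : ε * (G + f2) ≤ G + f2 := by nlinarith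
  have hεE0 : 0 ≤ ε * (G + f2) := by positivity
  have hθE : |θ| ≤ 5 / 2 * (G + f2) := by
    rw [abs_le, hθ, hD]
    constructor <;> linarith
  have hθ1 : |θ| ≤ η1 := by linarith
  have hθsq : θ ^ 2 ≤ ε * (G + f2) := by
    have : θ ^ 2 ≤ (5 / 2 * (G + f2)) ^ 2 := by
      rw [← sq_abs]; exact pow_le_pow_left₀ (abs_nonneg _) hθE 2
    have h3 : (5 / 2 * (G + f2)) ^ 2 = 25 / 4 * (G + f2) * (G + f2) := by ring
    have h4 : 25 / 4 * (G + f2) ≤ ε := by nlinarith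
    calc θ ^ 2 ≤ 25 / 4 * (G + f2) * (G + f2) := by rw [← h3]; exact this
      _ ≤ ε * (G + f2) := mul_le_mul_of_nonneg_right h4 hE0
  have hθlt : θ < 1 := by
    have := le_abs_self θ
    nlinarith
  have hvs := H3 p (gau_mono hp e2) hint
  -- differentiability on almost every section
  have hnul := nls_main p η κ hp ep.le hκ hκ1 hη4
    (fun φ t t' ht ht' => ((H4 p (gau_mono hp e3) φ).2 t t' ht ht').2)
  rw [ae_restrict_iff' measurableSet_Icc] at hnul ⊢
  filter_upwards [hnul] with t ht hmem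
  have hd := ht hmem
  have htabs : |t| ≤ 1 - κ := by
    rw [abs_le]; constructor <;> linarith [hmem.1, hmem.2]
  have hyt := hyp t htabs
  set V := (volume (Kp p)).toReal with hV
  set S := (bd (Kp p)).toReal with hS
  set A := (volume (Mp p t)).toReal with hA
  set L := (bd (Mp p t)).toReal with hL
  have hπ := Real.pi_pos
  have hA0 : 0 ≤ A := ENNReal.toReal_nonneg
  have hL0 : 0 ≤ L := ENNReal.toReal_nonneg
  have k1 : (1 - θ) ^ 2 ≤ (4 * Real.pi * (A / L ^ 2)) ^ 2 := by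
    have a1 : 36 * Real.pi * (V ^ 2 / S ^ 3) ≤
        36 * Real.pi * (4 * Real.pi / 9 * (A / L ^ 2) ^ 2) :=
      mul_le_mul_of_nonneg_left hyt (by positivity)
    have a2 : 36 * Real.pi * (4 * Real.pi / 9 * (A / L ^ 2) ^ 2) =
        (4 * Real.pi * (A / L ^ 2)) ^ 2 := by ring
    have a3 : (1 - θ) ^ 2 = 1 - 2 * θ + θ ^ 2 := by ring
    rw [a3]
    have a4 : 2 * θ = DD (FF p) + 2 * ε * (G + f2) := by rw [hθ]; ring
    rw [a4]
    linarith
  have k2 : 1 - θ ≤ 4 * Real.pi * (A / L ^ 2) := by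
    have b : 0 ≤ 4 * Real.pi * (A / L ^ 2) := by positivity
    exact le_of_sq_le_sq' k1 b
  have hLpos : 0 < L := by
    rcases hL0.lt_or_eq with h | h
    · exact h
    · rw [← h] at k2; simp at k2; linarith
  have k3 : (1 - θ) * L ^ 2 ≤ 4 * Real.pi * A := by
    have : (1 - θ) * L ^ 2 ≤ 4 * Real.pi * (A / L ^ 2) * L ^ 2 :=
      mul_le_mul_of_nonneg_right k2 (by positivity)
    have h5 : 4 * Real.pi * (A / L ^ 2) * L ^ 2 = 4 * Real.pi * A := by
      field_simp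
    linarith
  have hLtop : bd (Mp p t) ≠ ⊤ := by
    intro h; rw [hL, h] at hLpos; simp at hLpos
  -- the functions on the circle
  have hSc := Sp_cont_right p η κ hp ep.le hκ hκ1 hη4 t htabs
  have hptm : Measurable (fun φ => pt (Sp p t φ) φ) := by
    have : Continuous (fun φ => pt (Sp p t φ) φ) :=
      sigC_pt_cont.comp (hSc.prodMk continuous_id)
    exact this.measurable
  have hnorm : ∀ φ, ‖pt (Sp p t φ) φ‖ = 1 := fun φ =>
    sigC_pt_norm _ _ (rad_dir p η κ hp ep.le hκ hκ1 hη4 t φ htabs).1.le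
  have hne : ∀ φ, pt (Sp p t φ) φ ≠ 0 := by
    intro φ h
    have := hnorm φ
    rw [h, norm_zero] at this
    exact zero_ne_one this
  set f : ℝ → ℝ := fun φ => FF p (pt (Sp p t φ) φ) with hfd
  set w : ℝ → ℝ := fun φ => (1 - ε) * XX (e 2) (FF p) (pt (Sp p t φ) φ) ^ 2 with hwd
  have hfm : Measurable f := hmeasF.comp hptm
  have hwm : Measurable w := (((admA_meas_fderiv (FF p)).2 (e 2)).comp hptm).const_mul (1 - ε)
  have hfb : ∀ φ, |f φ| ≤ η1 := fun φ => by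
    have := gauF_bound p η hp ep.le hq _ (hne φ)
    linarith
  have hwb : ∀ φ, 0 ≤ w φ ∧ w φ ≤ η1 := fun φ => by
    have c1 := admA_XX (FF p) _ (hnorm φ)
    have c2 := gauF_grad_bound p η hp ep.le hq _ (hnorm φ)
    have c3 : ‖fderiv ℝ (FF p) (pt (Sp p t φ) φ)‖ ^ 2 ≤ 25 * η := by
      have h2 : ‖fderiv ℝ (FF p) (pt (Sp p t φ) φ)‖ ^ 2 ≤ (5 * √η) ^ 2 :=
        pow_le_pow_left₀ (norm_nonneg _) c2 2
      rw [mul_pow, Real.sq_sqrt ep.le] at h2
      linarith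
    have c4 : (1 - (pt (Sp p t φ) φ) 2 ^ 2) * ‖fderiv ℝ (FF p) (pt (Sp p t φ) φ)‖ ^ 2 ≤
        ‖fderiv ℝ (FF p) (pt (Sp p t φ) φ)‖ ^ 2 := aux1 _ _
    have c5 : 0 ≤ XX (e 2) (FF p) (pt (Sp p t φ) φ) ^ 2 := by positivity
    constructor
    · have : 0 ≤ 1 - ε := by linarith
      positivity
    · have : w φ ≤ XX (e 2) (FF p) (pt (Sp p t φ) φ) ^ 2 := aux2 hε.le c5
      linarith
  have hR2 : ∀ φ, Rr p t φ ^ 2 = (1 - t ^ 2) + 2 * f φ := fun φ =>
    (rad_dir p η κ hp ep.le hκ hκ1 hη4 t φ htabs).2.2.2.2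
  have hs1 : κ ≤ 1 - t ^ 2 := aux3 hκ hκ1 htabs
  have hs2 : 1 - t ^ 2 ≤ 1 := by linarith [sq_nonneg t]
  -- the perimeter
  have h3η : 3 * √η ≤ √κ / 4 := by
    have : √η ≤ √κ / 12 := by
      rw [Real.sqrt_le_left (by positivity)]
      rw [div_pow, Real.sq_sqrt hκ.le]
      linarith
    linarith
  have hper := perim_le p η κ hp ep.le hκ hκ1 hη4 h3η t htabs hd
  have hint2 : ∫ φ in (-Real.pi)..Real.pi,
      √(((1 - t ^ 2) + 2 * f φ) + w φ / ((1 - t ^ 2) + 2 * f φ)) ≤ L := by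
    rw [intervalIntegral.integral_of_le (by linarith), integral_Ioc_eq_integral_Ioo,
      integral_eq_lintegral_of_nonneg_ae (Eventually.of_forall fun φ => Real.sqrt_nonneg _)
        (by
          apply Measurable.aestronglyMeasurable
          fun_prop)]
    apply ENNReal.toReal_mono hLtop
    refine le_trans ?_ hper
    apply lintegral_mono_ae
    filter_upwards [hd] with φ hdφ
    apply ENNReal.ofReal_le_ofReal
    have := H2 p (gau_mono hp e1) t φ htabs hdφ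
    rw [hR2 φ] at this
    exact this
  have harea := area_eq p η κ hp ep.le hκ hκ1 hη4 t htabs
  have hA2 : A = 1 / 2 * ∫ φ in (-Real.pi)..Real.pi, ((1 - t ^ 2) + 2 * f φ) := by
    rw [hA, harea, ENNReal.toReal_ofReal]
    · congr 1
      apply intervalIntegral.integral_congr
      intro φ _
      exact hR2 φ
    · have : 0 ≤ ∫ φ in (-Real.pi)..Real.pi, Rr p t φ ^ 2 :=
        intervalIntegral.integral_nonneg (by linarith) (fun φ _ => sq_nonneg _)
      linarith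
  rw [hA2] at k3
  have hfin := H1 (1 - t ^ 2) θ L f w hs1 hs2 hθ1 hfm hwm hfb hwb hint2 k3
  have hav : av w = (1 - ε) * av (fun φ => XX (e 2) (FF p) (pt (Sp p t φ) φ) ^ 2) := by
    simp only [av, hwd]
    rw [intervalIntegral.integral_const_mul]
    ring
  rw [hav] at hfin
  exact hfin

end Pool.Agent.Lib_helper15.STE
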