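import Pool.Agent.Lib_helper15.STE.F.AG

/-! # STE: assembly of the geometric half, part 2: integration over the sections -/

open MeasureTheory Filter Topology
open scoped InnerProductSpace

namespace Pool.Agent.Lib_helper15.STE

theorem av_const_mul (c : ℝ) (f : ℝ → ℝ) : av (fun φ => c * f φ) = c * av f := by
  simp only [av, intervalIntegral.integral_const_mul]; ring

theorem bdd_ii (f : ℝ → ℝ) (hf : Measurable f) (C : ℝ) (hC : ∀ φ, |f φ| ≤ C) (a b : ℝ) :
    IntervalIntegrable f volume a b := by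
  rw [intervalIntegrable_iff]
  refine Measure.integrableOn_of_bounded (M := C) ?_ hf.aestronglyMeasurable
    (Eventually.of_forall fun x => by rw [Real.norm_eq_abs]; exact hC x)
  exact ne_of_lt (by rw [Set.uIoc, Real.volume_Ioc]; exact ENNReal.ofReal_lt_top)

theorem av_mono {f g : ℝ → ℝ} (hf : IntervalIntegrable f volume (-Real.pi) Real.pi)
    (hg : IntervalIntegrable g volume (-Real.pi) Real.pi) (h : ∀ φ, f φ ≤ g φ) :
    av f ≤ av g := by
  unfold av
  apply mul_le_mul_of_nonneg_left _ (by have := Real.pi_pos; positivity)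
  exact intervalIntegral.integral_mono_on (by have := Real.pi_pos; linarith) hf hg
    (fun x _ => h x)

theorem av_add {f g : ℝ → ℝ} (hf : IntervalIntegrable f volume (-Real.pi) Real.pi)
    (hg : IntervalIntegrable g volume (-Real.pi) Real.pi) :
    av (fun φ => f φ + g φ) = av f + av g := by
  unfold av
  rw [intervalIntegral.integral_add hf hg]; ring

theorem av_sub {f g : ℝ → ℝ} (hf : IntervalIntegrable f volume (-Real.pi) Real.pi)
    (hg : IntervalIntegrable g volume (-Real.pi) Real.pi) :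
    av (fun φ => f φ - g φ) = av f - av g := by
  unfold av
  rw [intervalIntegral.integral_sub hf hg]; ring

theorem av_const (c : ℝ) : av (fun _ => c) = c := by
  have := Real.pi_pos
  unfold av
  rw [intervalIntegral.integral_const, smul_eq_mul]
  field_simp
  ring

theorem av_nonneg {f : ℝ → ℝ} (h : ∀ φ, 0 ≤ f φ) : 0 ≤ av f := by
  have := Real.pi_pos
  unfold av
  exact mul_nonneg (by positivity)
    (intervalIntegral.integral_nonneg (by linarith) (fun x _ => h x))

theorem av_abs {f : ℝ → ℝ} : |av f| ≤ av (fun φ => |f φ|) := by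
  have := Real.pi_pos
  unfold av
  rw [abs_mul, abs_of_pos (by positivity : (0:ℝ) < (2 * Real.pi)⁻¹)]
  exact mul_le_mul_of_nonneg_left
    (intervalIntegral.abs_integral_le_integral_abs (by linarith)) (by positivity)

theorem av_sq {f : ℝ → ℝ} (hf : Measurable f) {C : ℝ} (hC : ∀ φ, |f φ| ≤ C) :
    av f ^ 2 ≤ av (fun φ => f φ ^ 2) := by
  have i1 := bdd_ii f hf C hC (-Real.pi) Real.pi
  have i2 : IntervalIntegrable (fun φ => f φ ^ 2) volume (-Real.pi) Real.pi :=
    bdd_ii _ (hf.pow_const 2) (C ^ 2) (fun φ => by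
      rw [abs_of_nonneg (sq_nonneg _), ← sq_abs]
      exact pow_le_pow_left₀ (abs_nonneg _) (hC φ) 2) _ _
  have h0 : 0 ≤ av (fun φ => (f φ - av f) ^ 2) := av_nonneg (fun φ => sq_nonneg _)
  have h1 : (fun φ => (f φ - av f) ^ 2) =
      fun φ => (f φ ^ 2 - (2 * av f) * f φ) + av f ^ 2 := by
    funext φ; ring
  rw [h1, av_add (i2.sub (i1.const_mul _)) intervalIntegrable_const,
    av_sub i2 (i1.const_mul _), av_const_mul, av_const] at h0
  nlinarith

theorem circ_aux {f g : ℝ → ℝ} (hf : Measurable f) (hg : Measurable g) {C : ℝ}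
    (hfC : ∀ φ, |f φ| ≤ C) (hgC : ∀ φ, |g φ| ≤ C) {ε : ℝ} (hε : 0 < ε) (hε1 : ε < 1)
    (hfg : ∀ φ, |f φ - g φ| ≤ ε * |g φ|) :
    av (fun φ => f φ ^ 2) ≤ (1 + ε) ^ 2 * av (fun φ => g φ ^ 2) ∧
      av g ^ 2 - 3 * ε * av (fun φ => g φ ^ 2) ≤ av f ^ 2 := by
  have sqb : ∀ h : ℝ → ℝ, (∀ φ, |h φ| ≤ C) → ∀ φ, |h φ ^ 2| ≤ C ^ 2 := fun h hh φ => by
    rw [abs_of_nonneg (sq_nonneg _), ← sq_abs]
    exact pow_le_pow_left₀ (abs_nonneg _) (hh φ) 2
  have i1 := bdd_ii f hf C hfC (-Real.pi) Real.pi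
  have i2 := bdd_ii g hg C hgC (-Real.pi) Real.pi
  have i3 := bdd_ii _ (hf.pow_const 2) (C ^ 2) (sqb f hfC) (-Real.pi) Real.pi
  have i4 := bdd_ii _ (hg.pow_const 2) (C ^ 2) (sqb g hgC) (-Real.pi) Real.pi
  have hle : ∀ φ, |f φ| ≤ (1 + ε) * |g φ| := fun φ => by
    have := abs_sub_abs_le_abs_sub (f φ) (g φ)
    linarith [hfg φ]
  constructor
  · rw [← av_const_mul]
    apply av_mono i3 (i4.const_mul _)
    intro φ
    have := pow_le_pow_left₀ (abs_nonneg _) (hle φ) 2
    rw [sq_abs, mul_pow, sq_abs] at this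
    exact this
  · have hC0 : 0 ≤ C := le_trans (abs_nonneg _) (hfC 0)
    have ga : Measurable (fun φ => |g φ|) := hg.abs
    have gaC : ∀ φ, |(|g φ|)| ≤ C := fun φ => by rw [abs_abs]; exact hgC φ
    have i5 := bdd_ii _ ga C gaC (-Real.pi) Real.pi
    have s1 := av_sq ga gaC
    simp only [sq_abs] at s1
    have m0 : 0 ≤ av (fun φ => |g φ|) := av_nonneg (fun φ => abs_nonneg _)
    have d1 : |av f - av g| ≤ ε * av (fun φ => |g φ|) := by
      rw [← av_sub i1 i2, ← av_const_mul]
      refine le_trans av_abs ?_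
      refine av_mono ((i1.sub i2).abs) (i5.const_mul _) hfg
    have d2 : |av g| ≤ av (fun φ => |g φ|) := av_abs
    set m := av (fun φ => |g φ|) with hm
    have d3 : |av g + av f| ≤ 3 * m := by
      have : av g + av f = 2 * av g + (av f - av g) := by ring
      rw [this]
      have e1 := abs_add_le (2 * av g) (av f - av g)
      rw [abs_mul, abs_two] at e1
      nlinarith
    have d4 : av g ^ 2 - av f ^ 2 ≤ 3 * ε * m ^ 2 := by
      have : av g ^ 2 - av f ^ 2 = -((av f - av g) * (av g + av f)) := by ring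
      rw [this]
      have e2 : |(av f - av g) * (av g + av f)| ≤ (ε * m) * (3 * m) := by
        rw [abs_mul]
        exact mul_le_mul d1 d3 (abs_nonneg _) (by positivity)
      have e3 := neg_abs_le ((av f - av g) * (av g + av f))
      nlinarith
    have d5 : 3 * ε * m ^ 2 ≤ 3 * ε * av (fun φ => g φ ^ 2) :=
      mul_le_mul_of_nonneg_left s1 (by positivity)
    linarith

end Pool.Agent.Lib_helper15.STE
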