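import Pool.Agent.Lib_helper15.STE.F.AG2

/-! # STE: assembly of the geometric half, part 3 -/

open MeasureTheory Filter Topology
open scoped InnerProductSpace

namespace Pool.Agent.Lib_helper15.STE

theorem bdd_ii_on (f : ℝ → ℝ) (hf : Measurable f) (C : ℝ) (a b : ℝ) (hab : a ≤ b)
    (hC : ∀ t ∈ Set.Icc a b, |f t| ≤ C) : IntervalIntegrable f volume a b := by
  rw [intervalIntegrable_iff, Set.uIoc_of_le hab]
  refine Measure.integrableOn_of_bounded (M := C) ?_ hf.aestronglyMeasurable ?_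
  · exact ne_of_lt (by rw [Real.volume_Ioc]; exact ENNReal.ofReal_lt_top)
  · rw [ae_restrict_iff' measurableSet_Ioc]
    exact Eventually.of_forall fun x hx => by
      rw [Real.norm_eq_abs]; exact hC x (Set.Ioc_subset_Icc_self hx)

theorem av_meas (G : ℝ → ℝ → ℝ) (hG : Measurable (Function.uncurry G)) :
    Measurable (fun t => av (G t)) := by
  unfold av
  apply Measurable.const_mul
  have : (fun t => ∫ φ in (-Real.pi)..Real.pi, G t φ) =
      fun t => ∫ φ, G t φ ∂(volume.restrict (Set.Ioc (-Real.pi) Real.pi)) := by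
    funext t
    rw [intervalIntegral.integral_of_le (by have := Real.pi_pos; linarith)]
  rw [this]
  exact (StronglyMeasurable.integral_prod_right (f := G)
    (hG.stronglyMeasurable)).measurable

theorem ofReal_av (G : ℝ → ℝ) (hG : Measurable G) (h0 : ∀ φ, 0 ≤ G φ) (C : ℝ)
    (hC : ∀ φ, G φ ≤ C) :
    ENNReal.ofReal (av G) = ENNReal.ofReal (2 * Real.pi)⁻¹ *
      ∫⁻ φ in Set.Ioo (-Real.pi) Real.pi, ENNReal.ofReal (G φ) := by
  have hπ := Real.pi_pos
  unfold av
  rw [ENNReal.ofReal_mul (by positivity)]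
  congr 1
  rw [intervalIntegral.integral_of_le (by linarith), integral_Ioc_eq_integral_Ioo]
  rw [ofReal_integral_eq_lintegral_ofReal]
  · have := bdd_ii G hG C (fun φ => by rw [abs_of_nonneg (h0 φ)]; exact hC φ)
      (-Real.pi) Real.pi
    rw [intervalIntegrable_iff, Set.uIoc_of_le (by linarith)] at this
    exact this.mono_set Set.Ioo_subset_Ioc_self
  · exact Eventually.of_forall h0

theorem ofReal_av_int (G : ℝ → ℝ → ℝ) (hG : Measurable (Function.uncurry G))
    (h0 : ∀ t φ, 0 ≤ G t φ) (C a b : ℝ) (hab : a ≤ b)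
    (hC : ∀ t ∈ Set.Icc a b, ∀ φ, G t φ ≤ C) :
    ENNReal.ofReal (∫ t in a..b, av (G t)) = ENNReal.ofReal (2 * Real.pi)⁻¹ *
      ∫⁻ t in Set.Ioo a b, ∫⁻ φ in Set.Ioo (-Real.pi) Real.pi, ENNReal.ofReal (G t φ) := by
  have hπ := Real.pi_pos
  have hm := av_meas G hG
  have hbd : ∀ t ∈ Set.Icc a b, |av (G t)| ≤ C := fun t ht => by
    rw [abs_of_nonneg (av_nonneg (h0 t))]
    rw [← av_const C]
    refine av_mono ?_ intervalIntegrable_const (hC t ht)
    exact bdd_ii _ (hG.comp measurable_prodMk_left) C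
      (fun φ => by
        change |G t φ| ≤ C
        rw [abs_of_nonneg (h0 t φ)]; exact hC t ht φ) _ _
  rw [intervalIntegral.integral_of_le hab, integral_Ioc_eq_integral_Ioo,
    ofReal_integral_eq_lintegral_ofReal]
  · rw [← lintegral_const_mul]
    · apply setLIntegral_congr_fun measurableSet_Ioo
      intro t ht
      exact ofReal_av (G t) (hG.comp measurable_prodMk_left) (h0 t) C
        (hC t (Set.Ioo_subset_Icc_self ht))
    · exact Measurable.lintegral_prod_right' (f := fun z : ℝ × ℝ => ENNReal.ofReal (G z.1 z.2))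
        (ν := volume.restrict (Set.Ioo (-Real.pi) Real.pi)) hG.ennreal_ofReal
  · have := bdd_ii_on _ hm C a b hab hbd
    rw [intervalIntegrable_iff, Set.uIoc_of_le hab] at this
    exact this.mono_set Set.Ioo_subset_Ioc_self
  · exact Eventually.of_forall fun t => av_nonneg (h0 t)

/-- the derivative term -/
theorem core_der (p : E3 → ℝ) (η κ ε δ : ℝ) (hp : Gau p η) (h0 : 0 ≤ η) (hκ : 0 < κ)
    (hκ1 : κ < 1) (h1 : η ≤ κ / 4) (hε : 0 < ε) (hδ : 0 < δ)
    (hS1 : ∀ φ t, |t| ≤ 1 - κ → |Sp p t φ - t| ≤ δ)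
    (hS2 : ∀ φ t t', |t| ≤ 1 - κ → |t'| ≤ 1 - κ → |Sp p t φ - Sp p t' φ| ≤ (1 + ε) * |t - t'|)
    (a b : ℝ) (ha : -1 + κ ≤ a) (hab : a + 2 * δ ≤ b) (hb : b ≤ 1 - κ) :
    Der (FF p) (a + δ) (b - δ) ≤
      (1 + ε) * ∫ t in a..b, av (fun φ => XX (e 2) (FF p) (pt (Sp p t φ) φ) ^ 2) := by
  have hπ := Real.pi_pos
  have hq : η ≤ 1 / 4 := by linarith
  set H : E3 → ℝ := fun x => XX (e 2) (FF p) x ^ 2 with hH
  have hHm : Measurable H := (admA_meas_fderiv (FF p)).2 (e 2)
  have hHb : ∀ x, ‖x‖ = 1 → H x ≤ 25 * η := fun x hx => by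
    have c1 := admA_XX (FF p) x hx
    have c2 := gauF_grad_bound p η hp h0 hq x hx
    have c3 : ‖fderiv ℝ (FF p) x‖ ^ 2 ≤ 25 * η := by
      have h2 : ‖fderiv ℝ (FF p) x‖ ^ 2 ≤ (5 * √η) ^ 2 :=
        pow_le_pow_left₀ (norm_nonneg _) c2 2
      rw [mul_pow, Real.sq_sqrt h0] at h2
      linarith
    exact c1.trans ((aux1 _ _).trans c3)
  have hH0 : ∀ x, 0 ≤ H x := fun x => sq_nonneg _
  -- clamped section map
  set cl : ℝ → ℝ := fun t => max (-1 + κ) (min t (1 - κ)) with hcl
  have hclc : Continuous cl := by fun_prop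
  have hclm : ∀ t, |cl t| ≤ 1 - κ := fun t => by
    rw [abs_le]
    constructor
    · have := le_max_left (-1 + κ) (min t (1 - κ))
      simp only [hcl]; linarith
    · simp only [hcl]
      exact max_le (by linarith) (min_le_right _ _)
  have hcle : ∀ t ∈ Set.Icc a b, cl t = t := fun t ht => by
    simp only [hcl]
    rw [min_eq_left (by linarith [ht.2]), max_eq_right (by linarith [ht.1])]
  have hTc : Continuous (fun z : ℝ × ℝ => Sp p (cl z.1) z.2) := by
    have h := (Sp_cont p η κ hp h0 hκ hκ1 h1).comp (f := fun z : ℝ × ℝ => ((cl z.1, z.2) : ℝ × ℝ))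
      (s := Set.univ) (by fun_prop) (by intro z _; exact hclm z.1)
    rw [← continuousOn_univ]
    exact h
  have hT : Measurable (fun z : ℝ × ℝ => H (pt (Sp p (cl z.1) z.2) z.2)) :=
    hHm.comp (sigC_pt_cont.comp (hTc.prodMk continuous_snd)).measurable
  have hP : Measurable (fun z : ℝ × ℝ => H (pt z.1 z.2)) := hHm.comp sigC_pt_cont.measurable
  have hTn : ∀ t φ, ‖pt (Sp p (cl t) φ) φ‖ = 1 := fun t φ =>
    sigC_pt_norm _ _ (rad_dir p η κ hp h0 hκ hκ1 h1 (cl t) φ (hclm t)).1.le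
  have hr : ∫ t in a..b, av (fun φ => XX (e 2) (FF p) (pt (Sp p t φ) φ) ^ 2) =
      ∫ t in a..b, av (fun φ => H (pt (Sp p (cl t) φ) φ)) := by
    apply intervalIntegral.integral_congr
    intro t ht
    rw [Set.uIcc_of_le (by linarith)] at ht
    simp only [hcle t ht, hH]
  rw [hr]
  have hr0 : 0 ≤ ∫ t in a..b, av (fun φ => H (pt (Sp p (cl t) φ) φ)) :=
    intervalIntegral.integral_nonneg (by linarith) (fun t _ => av_nonneg (fun φ => hH0 _))
  rw [← ENNReal.ofReal_le_ofReal_iff (by positivity), ENNReal.ofReal_mul (by positivity)]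
  rw [ofReal_av_int (fun t φ => H (pt (Sp p (cl t) φ) φ)) hT (fun t φ => hH0 _) (25 * η) a b
    (by linarith) (fun t _ φ => hHb _ (hTn t φ))]
  have hl : Der (FF p) (a + δ) (b - δ) =
      ∫ τ in (a + δ)..(b - δ), av (fun φ => H (pt τ φ)) := rfl
  rw [hl, ofReal_av_int (fun t φ => H (pt t φ)) hP (fun t φ => hH0 _) (25 * η) (a + δ) (b - δ)
    (by linarith) (fun t ht φ => hHb _ (sigC_pt_norm _ _ (by
      rw [abs_le]; constructor <;> linarith [ht.1, ht.2])))]
  rw [← mul_assoc, mul_comm (ENNReal.ofReal (1 + ε)), mul_assoc]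
  apply mul_le_mul_right
  have sw1 := lintegral_lintegral_swap (μ := volume.restrict (Set.Ioo (a + δ) (b - δ)))
    (ν := volume.restrict (Set.Ioo (-Real.pi) Real.pi))
    (f := fun t φ => ENNReal.ofReal (H (pt t φ))) hP.ennreal_ofReal.aemeasurable
  have sw2 := lintegral_lintegral_swap (μ := volume.restrict (Set.Ioo a b))
    (ν := volume.restrict (Set.Ioo (-Real.pi) Real.pi))
    (f := fun t φ => ENNReal.ofReal (H (pt (Sp p (cl t) φ) φ)))
    hT.ennreal_ofReal.aemeasurable
  rw [sw1, sw2, ← lintegral_const_mul]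
  · apply lintegral_mono
    intro φ
    have hm : Measurable (fun τ => ENNReal.ofReal (H (pt τ φ))) :=
      (hP.comp (measurable_prodMk_right)).ennreal_ofReal
    refine cov_main (fun t => Sp p (cl t) φ) a b δ ε hε.le hδ.le hab ?_ ?_
      (fun τ => ENNReal.ofReal (H (pt τ φ))) hm
    · intro t ht t' ht'
      rw [hcle t ht, hcle t' ht']
      have h3 := hclm t
      have h4 := hclm t'
      rw [hcle t ht] at h3
      rw [hcle t' ht'] at h4
      exact hS2 φ t t' h3 h4
    · intro t ht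
      rw [hcle t ht]
      have h3 := hclm t
      rw [hcle t ht] at h3
      exact hS1 φ t h3
  · exact Measurable.lintegral_prod_left'
      (f := fun z : ℝ × ℝ => ENNReal.ofReal (H (pt (Sp p (cl z.1) z.2) z.2))) hT.ennreal_ofReal

end Pool.Agent.Lib_helper15.STE
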