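import Pool.Agent.Lib_helper15.STE.F.AG3

/-! # STE: assembly of the geometric half, part 4 -/

open MeasureTheory Filter Topology
open scoped InnerProductSpace

namespace Pool.Agent.Lib_helper15.STE

theorem Sav_ii (p : E3 → ℝ) (η κ : ℝ) (hp : Gau p η) (h0 : 0 ≤ η) (hκ : 0 < κ)
    (hκ1 : κ < 1) (h1 : η ≤ κ / 4) (H : E3 → ℝ) (hHm : Measurable H) (C : ℝ)
    (hC : ∀ x, ‖x‖ = 1 → |H x| ≤ C) (a b : ℝ) (ha : -1 + κ ≤ a) (hab : a ≤ b)
    (hb : b ≤ 1 - κ) :
    IntervalIntegrable (fun t => av (fun φ => H (pt (Sp p t φ) φ))) volume a b := by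
  have hπ := Real.pi_pos
  set cl : ℝ → ℝ := fun t => max (-1 + κ) (min t (1 - κ)) with hcl
  have hclc : Continuous cl := by fun_prop
  have hclm : ∀ t, |cl t| ≤ 1 - κ := fun t => by
    rw [abs_le]
    constructor
    · have := le_max_left (-1 + κ) (min t (1 - κ))
      simp only [hcl]; linarith
    · simp only [hcl]
      exact max_le (by linarith) (min_le_right _ _)
  have hcle : ∀ t ∈ Set.Icc a b, cl t = t := fun t ht => by
    simp only [hcl]
    rw [min_eq_left (by linarith [ht.2]), max_eq_right (by linarith [ht.1])]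
  have hTc : Continuous (fun z : ℝ × ℝ => Sp p (cl z.1) z.2) := by
    have h := (Sp_cont p η κ hp h0 hκ hκ1 h1).comp (f := fun z : ℝ × ℝ => ((cl z.1, z.2) : ℝ × ℝ))
      (s := Set.univ) (by fun_prop) (by intro z _; exact hclm z.1)
    rw [← continuousOn_univ]
    exact h
  have hT : Measurable (fun z : ℝ × ℝ => H (pt (Sp p (cl z.1) z.2) z.2)) :=
    hHm.comp (sigC_pt_cont.comp (hTc.prodMk continuous_snd)).measurable
  have hTn : ∀ t φ, ‖pt (Sp p (cl t) φ) φ‖ = 1 := fun t φ =>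
    sigC_pt_norm _ _ (rad_dir p η κ hp h0 hκ hκ1 h1 (cl t) φ (hclm t)).1.le
  have key : IntervalIntegrable (fun t => av (fun φ => H (pt (Sp p (cl t) φ) φ)))
      volume a b := by
    apply bdd_ii_on _ (av_meas (fun t φ => H (pt (Sp p (cl t) φ) φ)) hT) C a b hab
    intro t _
    refine le_trans av_abs ?_
    rw [← av_const C]
    refine av_mono ?_ intervalIntegrable_const (fun φ => hC _ (hTn t φ))
    refine IntervalIntegrable.abs (bdd_ii _ (hT.comp measurable_prodMk_left) C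
      (fun φ => hC _ (hTn t φ)) _ _)
  refine key.congr_uIoo ?_
  intro t ht
  rw [Set.uIoo_of_le hab] at ht
  simp only [hcle t (Set.Ioo_subset_Icc_self ht)]

theorem cm_ii (H : E3 → ℝ) (hHm : Measurable H) (C : ℝ)
    (hC : ∀ x, ‖x‖ = 1 → |H x| ≤ C) (a b : ℝ) (ha : -1 ≤ a) (hab : a ≤ b) (hb : b ≤ 1) :
    IntervalIntegrable (cm H) volume a b := by
  apply bdd_ii_on _ (sigC_cm_meas H hHm) C a b hab
  intro t ht
  exact sigC_cm_bound H C hC t (by rw [abs_le]; constructor <;> linarith [ht.1, ht.2])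

theorem fin_arith {ε δ G f Dr V1 V2 J D T : ℝ} (hε : 0 < ε) (hε4 : ε ≤ 1 / 4) (hεδ : ε ≤ δ / 40)
    (hG : 0 ≤ G) (hf : 0 ≤ f) (hDr : Dr ≤ 2 * G) (hJ : Dr ≤ (1 + ε) * J) (hV1 : V1 ≤ 2 * f)
    (hV10 : 0 ≤ V1) (hV2 : 0 ≤ V2) (hV : V2 ≤ V1) (hDE : |D| ≤ 3 * (G + f)) (hT0 : 0 ≤ T)
    (hT2 : T ≤ 2) (ba : ℝ) (hba0 : 0 ≤ ba) (hba : ba ≤ 2)
    (h : (1 - ε) * ((1 - ε) * J) ≤ ((1 + ε) * (1 + ε) ^ 2 + 3 * ε) * V1 - V2 +
      (T * (1 / 2 * D + ε * (G + f)) + ε * |1 / 2 * D + ε * (G + f)| * ba)) :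
    Dr - (V1 - V2) ≤ 1 / 2 * D * T + δ * (G + f) := by
  have hE : 0 ≤ G + f := by linarith
  have hθ : |1 / 2 * D + ε * (G + f)| ≤ 2 * (G + f) := by
    have h1 : |1 / 2 * D + ε * (G + f)| ≤ |1 / 2 * D| + |ε * (G + f)| := abs_add_le _ _
    rw [abs_mul, abs_of_nonneg (by norm_num : (0:ℝ) ≤ 1 / 2), abs_mul, abs_of_pos hε,
      abs_of_nonneg hE] at h1
    nlinarith
  set X := |1 / 2 * D + ε * (G + f)| with hX
  have hX0 : 0 ≤ X := abs_nonneg _
  set R := ((1 + ε) * (1 + ε) ^ 2 + 3 * ε) * V1 - V2 +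
      (T * (1 / 2 * D + ε * (G + f)) + ε * X * ba) with hR
  have s1 : (1 - ε) * (1 - ε) * Dr ≤ (1 + ε) * R := by
    have a1 : (1 - ε) * (1 - ε) * Dr ≤ (1 - ε) * (1 - ε) * ((1 + ε) * J) :=
      mul_le_mul_of_nonneg_left hJ (by nlinarith)
    have a2 : (1 - ε) * (1 - ε) * ((1 + ε) * J) = (1 + ε) * ((1 - ε) * ((1 - ε) * J)) := by ring
    have a3 : (1 + ε) * ((1 - ε) * ((1 - ε) * J)) ≤ (1 + ε) * R :=
      mul_le_mul_of_nonneg_left h (by linarith)
    linarith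
  have s2 : Dr ≤ (1 - ε) * (1 - ε) * Dr + 4 * ε * G := by
    have : Dr - (1 - ε) * (1 - ε) * Dr = (2 * ε - ε ^ 2) * Dr := by ring
    have a4 : (2 * ε - ε ^ 2) * Dr ≤ (2 * ε - ε ^ 2) * (2 * G) :=
      mul_le_mul_of_nonneg_left hDr (by nlinarith)
    have a5 : (2 * ε - ε ^ 2) * (2 * G) ≤ 4 * ε * G := by nlinarith [mul_nonneg (sq_nonneg ε) hG]
    linarith
  -- bound R
  have s3 : R ≤ (V1 - V2) + 7 * ε * V1 + 1 / 2 * D * T + 2 * ε * (G + f) + 4 * ε * (G + f) := by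
    have b1 : ((1 + ε) * (1 + ε) ^ 2 + 3 * ε) * V1 ≤ (1 + 7 * ε) * V1 := by
      apply mul_le_mul_of_nonneg_right _ hV10
      nlinarith [mul_nonneg hε.le hε.le, mul_nonneg (mul_nonneg hε.le hε.le) hε.le]
    have b2 : T * (1 / 2 * D + ε * (G + f)) = 1 / 2 * D * T + ε * (G + f) * T := by ring
    have b3 : ε * (G + f) * T ≤ ε * (G + f) * 2 :=
      mul_le_mul_of_nonneg_left hT2 (by positivity)
    have b4 : ε * X * ba ≤ ε * (2 * (G + f)) * 2 := by
      apply mul_le_mul _ hba hba0 (by positivity)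
      exact mul_le_mul_of_nonneg_left hθ hε.le
    rw [hR, b2]
    linarith
  have s4 : |1 / 2 * D * T| ≤ 3 * (G + f) := by
    rw [abs_mul, abs_mul, abs_of_nonneg (by norm_num : (0:ℝ) ≤ 1 / 2), abs_of_nonneg hT0]
    calc 1 / 2 * |D| * T ≤ 1 / 2 * (3 * (G + f)) * 2 := by
          apply mul_le_mul _ hT2 hT0 (by positivity)
          linarith
      _ = 3 * (G + f) := by ring
  have s5 : 1 / 2 * D * T ≤ 3 * (G + f) := (le_abs_self _).trans s4
  have s6 : R ≤ (V1 - V2) + 1 / 2 * D * T + 20 * ε * (G + f) := by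
    have : 7 * ε * V1 ≤ 14 * ε * f := by nlinarith
    nlinarith [mul_nonneg hε.le hG, mul_nonneg hε.le hf]
  have s7 : ε * ((V1 - V2) + 1 / 2 * D * T + 20 * ε * (G + f)) ≤ 10 * ε * (G + f) := by
    have : (V1 - V2) + 1 / 2 * D * T + 20 * ε * (G + f) ≤ 10 * (G + f) := by nlinarith
    nlinarith
  have s8 : (1 + ε) * R ≤ (V1 - V2) + 1 / 2 * D * T + 20 * ε * (G + f) + 10 * ε * (G + f) := by
    have : (1 + ε) * R ≤ (1 + ε) * ((V1 - V2) + 1 / 2 * D * T + 20 * ε * (G + f)) :=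
      mul_le_mul_of_nonneg_left s6 (by linarith)
    linarith
  have s9 : 4 * ε * G ≤ 4 * ε * (G + f) := by nlinarith [mul_nonneg hε.le hf]
  have s10 : 34 * ε * (G + f) ≤ δ * (G + f) := by
    apply mul_le_mul_of_nonneg_right _ hE; linarith
  linarith

theorem core_main (κ δ : ℝ) (hκ : 0 < κ) (hκ1 : κ < 1) (hδ : 0 < δ) :
    ∃ η : ℝ, 0 < η ∧ η ≤ κ / 4 ∧ ∀ p : E3 → ℝ, Gau p η → ∫ x, FF p x ∂sig = 0 → Hyp p κ →
      ∀ a b : ℝ, -1 + κ ≤ a → a + 2 * δ ≤ b → b ≤ 1 - κ →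
        Der (FF p) (a + δ) (b - δ) - Var (FF p) a b ≤
          1 / 2 * DD (FF p) * (∫ τ in a..b, (1 - τ ^ 2) ^ 2) + δ * (GG (FF p) + ff (FF p)) := by
  set ε : ℝ := min (1 / 4) (δ / 40) with hε
  have hε0 : 0 < ε := by rw [hε, lt_min_iff]; constructor <;> [norm_num; positivity]
  have hε4 : ε ≤ 1 / 4 := min_le_left _ _
  have hεδ : ε ≤ δ / 40 := min_le_right _ _
  have hε1 : ε < 1 := by linarith
  obtain ⟨η1, h1p, h1κ, H1⟩ := core_plane κ ε hκ hκ1 hε0 hε1
  obtain ⟨η2, h2p, h2κ, H2⟩ := slp_main κ ε hκ hκ1 hε0 hε1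
  refine ⟨min η1 η2, lt_min h1p h2p, (min_le_left _ _).trans h1κ, ?_⟩
  intro p hp hint hyp a b ha hab hb
  set η := min η1 η2 with hηd
  have hη0 : 0 < η := lt_min h1p h2p
  have hηκ : η ≤ κ / 4 := (min_le_left _ _).trans h1κ
  have hq : η ≤ 1 / 4 := by linarith
  have hpl := H1 p (gau_mono hp (min_le_left _ _)) hint hyp
  have hsl := H2 p (gau_mono hp (min_le_right _ _))
  have hab' : a ≤ b := by linarith
  have hadm := gauF_adm p η hp hη0.le hq
  have hmF := admA_meas _ hadm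
  have hFb : ∀ x, ‖x‖ = 1 → |FF p x| ≤ 2 * η := fun x hx =>
    gauF_bound p η hp hη0.le hq x (by intro h; rw [h, norm_zero] at hx; exact zero_ne_one hx)
  have hFb2 : ∀ x, ‖x‖ = 1 → |FF p x ^ 2| ≤ (2 * η) ^ 2 := fun x hx => by
    rw [abs_of_nonneg (sq_nonneg _), ← sq_abs]
    exact pow_le_pow_left₀ (abs_nonneg _) (hFb x hx) 2
  set H : E3 → ℝ := fun x => XX (e 2) (FF p) x ^ 2 with hH
  have hHm : Measurable H := (admA_meas_fderiv (FF p)).2 (e 2)
  have hgb : ∀ x, ‖x‖ = 1 → ‖fderiv ℝ (FF p) x‖ ^ 2 ≤ 25 * η := fun x hx => by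
    have c2 := gauF_grad_bound p η hp hη0.le hq x hx
    have h2 : ‖fderiv ℝ (FF p) x‖ ^ 2 ≤ (5 * √η) ^ 2 :=
      pow_le_pow_left₀ (norm_nonneg _) c2 2
    rw [mul_pow, Real.sq_sqrt hη0.le] at h2
    linarith
  have hHg : ∀ x, ‖x‖ = 1 → H x ≤ ‖fderiv ℝ (FF p) x‖ ^ 2 := fun x hx =>
    (admA_XX (FF p) x hx).trans (aux1 _ _)
  have hHb : ∀ x, ‖x‖ = 1 → |H x| ≤ 25 * η := fun x hx => by
    rw [abs_of_nonneg (sq_nonneg _)]
    exact (hHg x hx).trans (hgb x hx)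
  have hgm := (admA_meas_fderiv (FF p)).1
  have hgb' : ∀ x, ‖x‖ = 1 → |‖fderiv ℝ (FF p) x‖ ^ 2| ≤ 25 * η := fun x hx => by
    rw [abs_of_nonneg (sq_nonneg _)]; exact hgb x hx
  -- the two global bounds
  have hG2 := (sigC_integral _ hgm (25 * η) hgb').2
  have hf2 := (sigC_integral _ (hmF.pow_const 2) ((2 * η) ^ 2) hFb2).2
  have hDr : Der (FF p) (a + δ) (b - δ) ≤ 2 * GG (FF p) := by
    have e1 : Der (FF p) (a + δ) (b - δ) ≤ ∫ τ in (-1:ℝ)..1, cm H τ := by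
      unfold Der
      apply intervalIntegral.integral_mono_interval (by linarith) (by linarith) (by linarith)
      · exact Eventually.of_forall fun t => av_nonneg (fun φ => sq_nonneg _)
      · exact cm_ii H hHm _ hHb _ _ le_rfl (by norm_num) le_rfl
    have e2 : ∫ τ in (-1:ℝ)..1, cm H τ ≤
        ∫ τ in (-1:ℝ)..1, cm (fun x => ‖fderiv ℝ (FF p) x‖ ^ 2) τ := by
      apply intervalIntegral.integral_mono_on (by norm_num)
        (cm_ii H hHm _ hHb _ _ le_rfl (by norm_num) le_rfl)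
        (cm_ii _ hgm _ hgb' _ _ le_rfl (by norm_num) le_rfl)
      intro τ hτ
      exact sigC_cm_mono H _ hHm hgm (25 * η) hHb hgb' hHg τ (abs_le.mpr hτ)
    have e3 : GG (FF p) = 1 / 2 * ∫ τ in (-1:ℝ)..1, cm (fun x => ‖fderiv ℝ (FF p) x‖ ^ 2) τ :=
      hG2
    linarith
  have hab1 : -1 ≤ a := by linarith
  have hb1 : b ≤ 1 := by linarith
  set V1 := ∫ τ in a..b, cm (fun x => FF p x ^ 2) τ with hV1
  set V2 := ∫ τ in a..b, cm (FF p) τ ^ 2 with hV2
  have iV1 : IntervalIntegrable (fun τ => cm (fun x => FF p x ^ 2) τ) volume a b :=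
    cm_ii _ (hmF.pow_const 2) _ hFb2 _ _ hab1 hab' hb1
  have iV2 : IntervalIntegrable (fun τ => cm (FF p) τ ^ 2) volume a b := by
    apply bdd_ii_on _ ((sigC_cm_meas _ hmF).pow_const 2) ((2 * η) ^ 2) a b hab'
    intro t ht
    rw [abs_of_nonneg (sq_nonneg _), ← sq_abs]
    exact pow_le_pow_left₀ (abs_nonneg _) (sigC_cm_bound _ _ hFb t
      (by rw [abs_le]; constructor <;> linarith [ht.1, ht.2])) 2
  have hVar : Var (FF p) a b = V1 - V2 := by
    unfold Var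
    rw [intervalIntegral.integral_sub iV1 iV2]
  have hV1le : V1 ≤ 2 * ff (FF p) := by
    have e1 : V1 ≤ ∫ τ in (-1:ℝ)..1, cm (fun x => FF p x ^ 2) τ := by
      apply intervalIntegral.integral_mono_interval (by linarith) (by linarith) (by linarith)
      · exact Eventually.of_forall fun t => av_nonneg (fun φ => sq_nonneg _)
      · exact cm_ii _ (hmF.pow_const 2) _ hFb2 _ _ le_rfl (by norm_num) le_rfl
    have e3 : ff (FF p) = 1 / 2 * ∫ τ in (-1:ℝ)..1, cm (fun x => FF p x ^ 2) τ := hf2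
    linarith
  have hV10 : 0 ≤ V1 := intervalIntegral.integral_nonneg hab'
    (fun t _ => av_nonneg (fun φ => sq_nonneg _))
  have hV20 : 0 ≤ V2 := intervalIntegral.integral_nonneg hab' (fun t _ => sq_nonneg _)
  have hV21 : V2 ≤ V1 := by
    apply intervalIntegral.integral_mono_on hab' iV2 iV1
    intro t ht
    exact sigC_cm_sq _ hmF _ hFb t (by rw [abs_le]; constructor <;> linarith [ht.1, ht.2])
  -- the integrated inequality
  set J := ∫ t in a..b, av (fun φ => XX (e 2) (FF p) (pt (Sp p t φ) φ) ^ 2) with hJ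
  have iJ := Sav_ii p η κ hp hη0.le hκ hκ1 hηκ H hHm _ hHb a b ha hab' hb
  have hder := core_der p η κ ε δ hp hη0.le hκ hκ1 hηκ hε0 hδ
    (fun φ t ht => ((hsl φ).1 t ht).1.trans (by linarith))
    (fun φ t t' ht ht' => ((hsl φ).2 t t' ht ht').1) a b ha hab hb
  set θ : ℝ := 1 / 2 * DD (FF p) + ε * (GG (FF p) + ff (FF p)) with hθ
  have hpt : ∀ᵐ t ∂(volume.restrict (Set.Icc a b)),
      (1 - ε) * ((1 - ε) * av (fun φ => H (pt (Sp p t φ) φ))) ≤
        ((1 + ε) * (1 + ε) ^ 2 + 3 * ε) * cm (fun x => FF p x ^ 2) t - cm (FF p) t ^ 2 +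
          ((1 - t ^ 2) ^ 2 * θ + ε * |θ|) := by
    have hmono : volume.restrict (Set.Icc a b) ≤
        volume.restrict (Set.Icc (-1 + κ) (1 - κ)) :=
      Measure.restrict_mono (Set.Icc_subset_Icc ha hb) le_rfl
    have hpl' := ae_mono hmono hpl
    have hmem : ∀ᵐ t ∂(volume.restrict (Set.Icc a b)), t ∈ Set.Icc a b :=
      ae_restrict_mem measurableSet_Icc
    filter_upwards [hpl', hmem] with t h1 ht
    have htabs : |t| ≤ 1 - κ := by rw [abs_le]; constructor <;> linarith [ht.1, ht.2]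
    have ht1 : |t| ≤ 1 := by linarith
    have hSc := Sp_cont_right p η κ hp hη0.le hκ hκ1 hηκ t htabs
    have hptm : Measurable (fun φ => pt (Sp p t φ) φ) :=
      (sigC_pt_cont.comp (hSc.prodMk continuous_id)).measurable
    have hptm0 : Measurable (fun φ => pt t φ) := (pt_cont_right t).measurable
    have hnorm : ∀ φ, ‖pt (Sp p t φ) φ‖ = 1 := fun φ =>
      sigC_pt_norm _ _ (rad_dir p η κ hp hη0.le hκ hκ1 hηκ t φ htabs).1.le
    have hca := circ_aux (f := fun φ => FF p (pt (Sp p t φ) φ)) (g := fun φ => FF p (pt t φ))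
      (hmF.comp hptm) (hmF.comp hptm0) (C := 2 * η) (fun φ => hFb _ (hnorm φ))
      (fun φ => hFb _ (sigC_pt_norm _ _ ht1)) hε0 hε1 (fun φ => ((hsl φ).1 t htabs).2)
    have c1 := hca.1
    have c2 := hca.2
    have c3 : (1 + ε) * av (fun φ => FF p (pt (Sp p t φ) φ) ^ 2) ≤
        (1 + ε) * ((1 + ε) ^ 2 * av (fun φ => FF p (pt t φ) ^ 2)) :=
      mul_le_mul_of_nonneg_left c1 (by linarith)
    have d1 : cm (fun x => FF p x ^ 2) t = av (fun φ => FF p (pt t φ) ^ 2) := rfl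
    have d2 : cm (FF p) t = av (fun φ => FF p (pt t φ)) := rfl
    rw [d1, d2]
    have d3 : (1 - ε) * ((1 - ε) * av (fun φ => H (pt (Sp p t φ) φ))) =
      (1 - ε) * ((1 - ε) * av (fun φ => XX (e 2) (FF p) (pt (Sp p t φ) φ) ^ 2)) := rfl
    rw [d3]
    linarith
  have ipoly : IntervalIntegrable (fun t : ℝ => (1 - t ^ 2) ^ 2 * θ + ε * |θ|) volume a b :=
    Continuous.intervalIntegrable (by fun_prop) _ _
  have hInt := intervalIntegral.integral_mono_ae_restrict hab'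
    ((iJ.const_mul (1 - ε)).const_mul (1 - ε))
    (((iV1.const_mul ((1 + ε) * (1 + ε) ^ 2 + 3 * ε)).sub iV2).add ipoly) hpt
  rw [intervalIntegral.integral_const_mul, intervalIntegral.integral_const_mul,
    intervalIntegral.integral_add ((iV1.const_mul _).sub iV2) ipoly,
    intervalIntegral.integral_sub (iV1.const_mul _) iV2,
    intervalIntegral.integral_const_mul,
    intervalIntegral.integral_add (Continuous.intervalIntegrable (by fun_prop) _ _)
      intervalIntegrable_const,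
    intervalIntegral.integral_mul_const, intervalIntegral.integral_const, smul_eq_mul] at hInt
  have hJH : ∫ t in a..b, av (fun φ => H (pt (Sp p t φ) φ)) = J := rfl
  rw [hJH] at hInt
  set T := ∫ τ in a..b, (1 - τ ^ 2) ^ 2 with hT
  have hT0 : 0 ≤ T := intervalIntegral.integral_nonneg hab' (fun t _ => sq_nonneg _)
  have hT2 : T ≤ 2 := by
    have : T ≤ ∫ τ in a..b, (1:ℝ) := by
      apply intervalIntegral.integral_mono_on hab' (Continuous.intervalIntegrable (by fun_prop) _ _)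
        intervalIntegrable_const
      intro t ht
      have h2 : t ^ 2 ≤ 1 := by nlinarith [ht.1, ht.2]
      nlinarith [sq_nonneg t]
    rw [intervalIntegral.integral_const, smul_eq_mul] at this
    linarith
  rw [hVar]
  have hGn := GG_nonneg (FF p)
  have hfn := ff_nonneg (FF p)
  have hDE : |DD (FF p)| ≤ 3 * (GG (FF p) + ff (FF p)) := by
    unfold DD
    rw [abs_le]; constructor <;> linarith
  refine fin_arith (ε := ε) (J := J) hε0 hε4 hεδ hGn hfn hDr hder hV1le hV10 hV20 hV21 hDE hT0 hT2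
    (b - a) (by linarith) (by linarith) ?_
  have k1 : (b - a) * (ε * |θ|) = ε * |θ| * (b - a) := by ring
  rw [k1] at hInt
  exact hInt

end Pool.Agent.Lib_helper15.STE
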