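import Pool.Agent.Lib_helper15.STE.F.AG4

/-! # STE: assembly of the geometric half, part 5: `geo_main` -/

open MeasureTheory Filter Topology
open scoped InnerProductSpace

namespace Pool.Agent.Lib_helper15.STE

theorem Kp_comp (p : E3 → ℝ) (g : E3 ≃ₗᵢ[ℝ] E3) : Kp (p ∘ g) = g ⁻¹' Kp p := rfl

theorem Kp_meas (p : E3 → ℝ) (η : ℝ) (hp : Gau p η) (h0 : 0 ≤ η) (h1 : η ≤ 1 / 4) :
    MeasurableSet (Kp p) :=
  (isClosed_le (gauA_lip p η hp h0 h1).continuous continuous_const).measurableSet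

theorem hyp_of (κ : ℝ) (hκ : 0 < κ) (hκ1 : κ < 1) (q : E3 → ℝ) (η : ℝ) (hq : Gau q η)
    (h0 : 0 ≤ η) (h1 : η ≤ κ / 4) (c : E3) (R : ℝ) (hR : 0 < R)
    (hK : (volume ((fun x => c + R • x) '' Kp q)).toReal ^ 2 /
      (bd ((fun x => c + R • x) '' Kp q)).toReal ^ 3 ≤
        4 * Real.pi / 9 * (sInf (iot ((fun x => c + R • x) '' Kp q))) ^ 2)
    (g : E3 ≃ₗᵢ[ℝ] E3) : Hyp (q ∘ g) κ := by
  intro t ht
  have hπ := Real.pi_pos
  have hg := rot_gau q η hq g
  obtain ⟨P, hP⟩ := pln_main q c R hR g t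
  set K := (fun x => c + R • x) '' Kp q with hKd
  obtain ⟨s1, s2⟩ := scl_bd (n := 3) (by norm_num) (Kp q) c R hR
  obtain ⟨m1, m2⟩ := scl_bd (n := 2) (by norm_num) (Mp (q ∘ g) t) 0 R hR
  obtain ⟨r1, r2⟩ := rot_bd (Kp q) g
  have e1 : (volume (Kp (q ∘ g))).toReal ^ 2 / (bd (Kp (q ∘ g))).toReal ^ 3 =
      (volume K).toReal ^ 2 / (bd K).toReal ^ 3 := by
    rw [Kp_comp, r1, r2, hKd, s1, s2, ENNReal.toReal_mul, ENNReal.toReal_mul,
      ENNReal.toReal_ofReal (by positivity), ENNReal.toReal_ofReal (by positivity)]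
    rw [mul_pow, mul_pow]
    have : R ^ (3 - 1) = R ^ 2 := rfl
    rw [this]
    have hRR : (R ^ 3) ^ 2 = (R ^ 2) ^ 3 := by ring
    rw [hRR, mul_div_mul_left _ _ (by positivity)]
  have e2 : (volume (P ⁻¹' K)).toReal / (bd (P ⁻¹' K)).toReal ^ 2 =
      (volume (Mp (q ∘ g) t)).toReal / (bd (Mp (q ∘ g) t)).toReal ^ 2 := by
    rw [hP, m1, m2, ENNReal.toReal_mul, ENNReal.toReal_mul,
      ENNReal.toReal_ofReal (by positivity), ENNReal.toReal_ofReal (by positivity)]
    rw [mul_pow]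
    have : R ^ (2 - 1) = R := by norm_num
    rw [this, mul_div_mul_left _ _ (by positivity)]
  have hpos : 0 < volume (Mp (q ∘ g) t) := by
    rw [area_eq (q ∘ g) η κ hg h0 hκ hκ1 h1 t ht, ENNReal.ofReal_pos]
    have hcont : Continuous (fun φ => Rr (q ∘ g) t φ) := by
      have h := (rad_cont (q ∘ g) η κ hg h0 hκ hκ1 h1).comp (f := fun φ : ℝ => ((t, φ) : ℝ × ℝ))
        (s := Set.univ) (by fun_prop) (by intro φ _; exact ht)
      rw [← continuousOn_univ]
      exact h
    have : ∫ φ in (-Real.pi)..Real.pi, κ / 2 ≤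
        ∫ φ in (-Real.pi)..Real.pi, Rr (q ∘ g) t φ ^ 2 := by
      apply intervalIntegral.integral_mono_on (by linarith) intervalIntegrable_const
        (Continuous.intervalIntegrable (hcont.pow 2) _ _)
      intro φ _
      exact (rad_bounds (q ∘ g) η κ hg h0 hκ hκ1 h1 t φ ht).2.1
    rw [intervalIntegral.integral_const, smul_eq_mul] at this
    have h5 : 0 < (Real.pi - -Real.pi) * (κ / 2) := by
      apply mul_pos <;> linarith
    linarith
  have hpos2 : 0 < volume (P ⁻¹' K) := by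
    rw [hP, m2]
    exact ENNReal.mul_pos (by
      rw [Ne, ENNReal.ofReal_eq_zero, not_le]; positivity) hpos.ne'
  have hmem : (volume (Mp (q ∘ g) t)).toReal / (bd (Mp (q ∘ g) t)).toReal ^ 2 ∈ iot K :=
    ⟨P, hpos2, e2.symm⟩
  have hbb : BddBelow (iot K) := ⟨0, by
    rintro x ⟨P, _, rfl⟩
    positivity⟩
  have hle := csInf_le hbb hmem
  have hnn : 0 ≤ sInf (iot K) := by
    apply Real.sInf_nonneg
    rintro x ⟨P, _, rfl⟩
    positivity
  rw [e1]
  refine hK.trans ?_
  apply mul_le_mul_of_nonneg_left _ (by positivity)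
  exact pow_le_pow_left₀ hnn hle 2

theorem geo_main (κ : ℝ) (hκ : 0 < κ) (hκ1 : κ < 1) (δ : ℝ) (hδ : 0 < δ) :
    ∃ η : ℝ, 0 < η ∧ ∀ K : Set E3, Convex ℝ K → IsCompact K → ∀ (c : E3) (r : ℝ), 0 < r →
      Metric.closedBall c ((1 - η) * r) ⊆ K → K ⊆ Metric.closedBall c ((1 + η) * r) →
      (volume K).toReal ^ 2 / (bd K).toReal ^ 3 ≤ 4 * Real.pi / 9 * (sInf (iot K)) ^ 2 →
      ∃ F : E3 → ℝ, Adm F ∧ ∫ x, F x ∂sig = 0 ∧ (∀ i, |∫ x, F x * x i ∂sig| ≤ δ * √(ff F)) ∧
        (∀ (g : E3 ≃ₗᵢ[ℝ] E3) (a b : ℝ), -1 + κ ≤ a → a + 2 * δ ≤ b → b ≤ 1 - κ →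
          Der (F ∘ g) (a + δ) (b - δ) - Var (F ∘ g) a b
            ≤ 1 / 2 * DD F * (∫ τ in a..b, (1 - τ ^ 2) ^ 2) + δ * (GG F + ff F)) ∧
        (ff F = 0 → ∃ (c' : E3) (r' : ℝ), 0 < r' ∧ K = Metric.closedBall c' r') := by
  obtain ⟨η1, h1p, h1κ, H1⟩ := core_main κ δ hκ hκ1 hδ
  set η : ℝ := min (min (η1 / 88) (δ / 176)) (1 / 400) with hη
  have ep : 0 < η := by
    simp only [hη, lt_min_iff]
    exact ⟨⟨by positivity, by positivity⟩, by norm_num⟩
  have e1 : η ≤ η1 / 88 := by simp [hη]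
  have e2 : η ≤ δ / 176 := by simp [hη]
  have e3 : η ≤ 1 / 400 := by rw [hη]; exact min_le_right _ _
  refine ⟨η, ep, fun K hK hKc c r hr hi ho hQ => ?_⟩
  obtain ⟨c', hc', hcen⟩ := nrmB_main K hKc c r η hr ep.le (by linarith) hi ho
  have hi' : Metric.closedBall c' ((1 - 11 * η) * r) ⊆ K := by
    refine subset_trans (Metric.closedBall_subset_closedBall' ?_) hi
    rw [dist_eq_norm]
    nlinarith
  have ho' : K ⊆ Metric.closedBall c' ((1 + 11 * η) * r) := by
    refine subset_trans ho (Metric.closedBall_subset_closedBall' ?_)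
    rw [dist_comm, dist_eq_norm]
    nlinarith
  obtain ⟨p, hp, hKp⟩ := nrmA_main K hK hKc c' r (11 * η) hr (by linarith) (by linarith) hi' ho'
  have hp' : Gau p (22 * η) := by
    have : 2 * (11 * η) = 22 * η := by ring
    rwa [this] at hp
  obtain ⟨l, hl, hq, hint, hsc⟩ := nrmC_scale p (22 * η) hp' (by linarith) (by linarith)
  set q : E3 → ℝ := fun x => l * p x with hqd
  have hq' : Gau q (88 * η) := by
    have : 4 * (22 * η) = 88 * η := by ring
    rwa [this] at hq
  have hKq : K = (fun x => c' + (r * l) • x) '' Kp q := by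
    rw [hKp, hsc, Set.image_image]
    congr 1
    funext x
    simp only [zero_add, smul_smul]
  have hRl : 0 < r * l := by positivity
  have hq4 : 88 * η ≤ 1 / 4 := by linarith
  have hqη : Gau q η1 := gau_mono hq' (by linarith)
  refine ⟨FF q, gauF_adm q (88 * η) hq' (by linarith) hq4, hint, ?_, ?_, ?_⟩
  · intro i
    have hm : ∫ x in Kp q, x i = 0 := by
      have h5 := hcen i
      rw [hKq, scl_moment (Kp q) (Kp_meas q _ hq' (by linarith) hq4) c' (r * l) hRl i] at h5
      rcases mul_eq_zero.mp h5 with h6 | h6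
      · exact absurd h6 (by positivity)
      · exact h6
    refine (nrmC_moment q (88 * η) hq' (by linarith) hq4 i hm).trans ?_
    apply mul_le_mul_of_nonneg_right _ (Real.sqrt_nonneg _)
    linarith
  · intro g a b ha hab hb
    rw [hKq] at hQ
    have hyp := hyp_of κ hκ hκ1 q (88 * η) hq' (by linarith) (by linarith) c' (r * l) hRl hQ g
    have hgq := rot_gau q η1 hqη g
    have hri := rot_int (FF q) g
    have hFg := rot_FF q g
    have hint' : ∫ x, FF (q ∘ g) x ∂sig = 0 := by rw [hFg, hri.1]; exact hint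
    have := H1 (q ∘ g) hgq hint' hyp a b ha hab hb
    rw [hFg] at this
    unfold DD at this ⊢
    rw [hri.2.1, hri.2.2] at this
    exact this
  · intro hf
    refine ⟨c', r * l, hRl, ?_⟩
    have hz := zer_main (FF q) (gauF_adm q (88 * η) hq' (by linarith) hq4) hf
    have hqn : ∀ x, q x = ‖x‖ := by
      intro x
      by_cases hx : x = 0
      · rw [hx, norm_zero]
        have := hq'.hom 0 0 le_rfl
        rw [zero_smul, zero_mul] at this
        exact this
      · have hxn : 0 < ‖x‖ := norm_pos_iff.mpr hx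
        set u : E3 := ‖x‖⁻¹ • x with hu
        have hun : ‖u‖ = 1 := by
          rw [hu, norm_smul, norm_inv, norm_norm, inv_mul_cancel₀ hxn.ne']
        have h1 := hz u hun
        have hqu : 0 < q u := gauA_pos q (88 * η) hq' hq4 u (by
          intro h; rw [h, norm_zero] at hun; exact zero_ne_one hun)
        have h2 := gauF_eq q (88 * η) hq' hq4 u hun
        rw [h1] at h2
        have h3 : (q u) ^ 2 = 1 := by
          have : ((q u) ^ 2)⁻¹ = 1 := by linarith
          exact inv_eq_one.mp this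
        have h4 : q u = 1 := by nlinarith
        have h5 : x = ‖x‖ • u := by
          rw [hu, smul_smul, mul_inv_cancel₀ hxn.ne', one_smul]
        have h6 := hq'.hom u ‖x‖ hxn.le
        rw [← h5, h4, mul_one] at h6
        exact h6
    rw [hKq]
    ext y
    simp only [Set.mem_image, Metric.mem_closedBall, Kp, Set.mem_setOf_eq, dist_eq_norm]
    constructor
    · rintro ⟨x, hx, rfl⟩
      rw [hqn] at hx
      rw [add_sub_cancel_left, norm_smul, Real.norm_of_nonneg hRl.le]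
      nlinarith
    · intro hy
      refine ⟨(r * l)⁻¹ • (y - c'), ?_, ?_⟩
      · rw [hqn, norm_smul, norm_inv, Real.norm_of_nonneg hRl.le]
        rw [inv_mul_le_iff₀ hRl, mul_one]
        exact hy
      · rw [smul_smul, mul_inv_cancel₀ hRl.ne', one_smul, add_sub_cancel]

end Pool.Agent.Lib_helper15.STE
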