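import Pool.Agent.Lib_helper15.STE.F.AG5
import Pool.Agent.Lib_helper59.STHF.Top

/-! # Steinhaus' inequality near the ball: top level -/

open MeasureTheory Filter Topology

namespace Pool.Agent.Lib_helper15.STE

theorem ste_main : ∃ η : ℝ, 0 < η ∧ ∀ K : Set E3, Convex ℝ K → IsCompact K →
    ∀ (c : E3) (r : ℝ), 0 < r →
      Metric.closedBall c ((1 - η) * r) ⊆ K → K ⊆ Metric.closedBall c ((1 + η) * r) →
      4 * Real.pi / 9 * (sInf (iot K)) ^ 2 ≤ (volume K).toReal ^ 2 / (bd K).toReal ^ 3 ∧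
      (4 * Real.pi / 9 * (sInf (iot K)) ^ 2 = (volume K).toReal ^ 2 / (bd K).toReal ^ 3 →
        ∃ (c' : E3) (r' : ℝ), 0 < r' ∧ K = Metric.closedBall c' r') := by
  obtain ⟨κ, hκ, hκ1, δ, hδ, H⟩ := STH.har_main
  obtain ⟨η, hη, G⟩ := geo_main κ hκ hκ1 δ hδ
  refine ⟨η, hη, fun K hK hKc c r hr h1 h2 => ?_⟩
  have key : (volume K).toReal ^ 2 / (bd K).toReal ^ 3 ≤ 4 * Real.pi / 9 * (sInf (iot K)) ^ 2 →
      ∃ (c' : E3) (r' : ℝ), 0 < r' ∧ K = Metric.closedBall c' r' := by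
    intro h
    obtain ⟨F, hF, h0, hm, hi, hb⟩ := G K hK hKc c r hr h1 h2 h
    exact hb (H F hF h0 hm hi)
  constructor
  · by_contra hcon
    obtain ⟨c', r', hr', rfl⟩ := key (le_of_lt (not_le.mp hcon))
    exact hcon (ball_case c' r' hr')
  · intro h
    exact key h.ge

end Pool.Agent.Lib_helper15.STE
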